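import Pool.Agent.H23.ZS3

set_option autoImplicit false

namespace Pool.Agent.Results.MP_c15e47_co.Additive

theorem result : ∃ C : ℕ, ∀ (n : ℕ) (G : SimpleGraph (Fin n)) [DecidableRel G.Adj],
    Even G.edgeFinset.card → ∀ N : ℕ, n + C ≤ N → ∀ c : Sym2 (Fin N) → ZMod 2 × ZMod 2,
      ∃ φ : Fin n ↪ Fin N, ∑ e ∈ G.edgeFinset, c (Sym2.map φ e) = 0 := by
  obtain ⟨C, hC⟩ := Pool.Agent.H23.ZS.zero_sum (ZMod 2 × ZMod 2)
  refine ⟨C, fun n G _ hG N hN c => ?_⟩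
  obtain ⟨π, h1, h2⟩ := hC n N G c hN (fun γ => by
    obtain ⟨m, hm⟩ := hG
    have h2 : ∀ x : ZMod 2 × ZMod 2, x + x = 0 := by decide
    rw [hm, add_smul, h2])
  exact ⟨⟨π, h1⟩, h2⟩

end Pool.Agent.Results.MP_c15e47_co.Additive
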